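import Pool.Agent.helper26.T5.SpecA

set_option autoImplicit false

namespace Pool.Agent.helper26.T5

open MeasureTheory

theorem LPD_per {W : ℕ} {F : ℤ → ℤ → ℝ} (hF : Per W F) (x y i j : ℤ) :
    F (x + W * i) (y + W * j) = F x y := by
  have h1 : Function.Periodic (fun x => F x (y + W * j)) (W : ℤ) := fun x => hF.px x _
  have h2 : Function.Periodic (fun y => F x y) (W : ℤ) := fun y => hF.py x y
  have h3 := h1.int_mul i x
  have h4 := h2.int_mul j y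
  have h5 : F (x + i * W) (y + W * j) = F x (y + W * j) := h3
  have h6 : F x (y + j * W) = F x y := h4
  rw [mul_comm (W : ℤ) i, h5, mul_comm (W : ℤ) j, h6]

/-- the residue class -/
def LPD_cl (W : ℕ) (P : Finset (ℤ × ℤ)) (v : ℕ × ℕ) : Finset (ℤ × ℤ) :=
  P.filter fun p => p.1 % W = v.1 ∧ p.2 % W = v.2

theorem LPD_sum {W : ℕ} (hW : 1 ≤ W) {F : ℤ → ℤ → ℝ} (hF : Per W F) (P : Finset (ℤ × ℤ)) :
    ∑ p ∈ P, F p.1 p.2 =
      ∑ v ∈ Finset.range W ×ˢ Finset.range W, F v.1 v.2 * ((LPD_cl W P v).card : ℝ) := by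
  have hW0 : (0 : ℤ) < W := by exact_mod_cast hW
  have hmaps : ∀ p ∈ P, (((p.1 % W).toNat, (p.2 % W).toNat) : ℕ × ℕ) ∈ Finset.range W ×ˢ Finset.range W := by
    intro p _
    have a1 := Int.emod_nonneg p.1 hW0.ne'
    have a2 := Int.emod_lt_of_pos p.1 hW0
    have b1 := Int.emod_nonneg p.2 hW0.ne'
    have b2 := Int.emod_lt_of_pos p.2 hW0
    rw [Finset.mem_product, Finset.mem_range, Finset.mem_range]
    constructor <;> simp only <;> omega
  rw [← Finset.sum_fiberwise_of_maps_to hmaps]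
  refine Finset.sum_congr rfl fun v hv => ?_
  have hset : P.filter (fun p : ℤ × ℤ => (((p.1 % W).toNat, (p.2 % W).toNat) : ℕ × ℕ) = v) = LPD_cl W P v := by
    unfold LPD_cl
    refine Finset.filter_congr fun p _ => ?_
    have a1 := Int.emod_nonneg p.1 hW0.ne'
    have b1 := Int.emod_nonneg p.2 hW0.ne'
    rw [Prod.ext_iff]
    constructor
    · rintro ⟨h1, h2⟩
      simp only at h1 h2
      omega
    · rintro ⟨h1, h2⟩
      simp only
      omega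
  rw [hset]
  have hc : ∀ p ∈ LPD_cl W P v, F p.1 p.2 = F v.1 v.2 := by
    intro p hp
    obtain ⟨-, h1, h2⟩ := Finset.mem_filter.1 hp
    have e1 : p.1 = v.1 + W * (p.1 / W) := by rw [← h1, Int.emod_add_mul_ediv]
    have e2 : p.2 = v.2 + W * (p.2 / W) := by rw [← h2, Int.emod_add_mul_ediv]
    rw [e1, e2, LPD_per hF]
  rw [Finset.sum_congr rfl hc, Finset.sum_const, nsmul_eq_mul, mul_comm]

theorem LPD_mean {W : ℕ} {F : ℤ → ℤ → ℝ} (hF : Per W F) :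
    ∑ v ∈ Finset.range W ×ˢ Finset.range W, F v.1 v.2 = (W : ℝ) ^ 2 := by
  rw [Finset.sum_product, ← hF.mean]

theorem LPD_lp {W : ℕ} (e₁ e₂ : ℂ) (v : ℕ × ℕ) (p : ℤ × ℤ) (h1 : p.1 % W = v.1) (h2 : p.2 % W = v.2) :
    lp 0 e₁ e₂ p = lp (v.1 * e₁ + v.2 * e₂) (W * e₁) (W * e₂) (p.1 / W, p.2 / W) := by
  have e1 : (p.1 : ℂ) = v.1 + W * ((p.1 / W : ℤ) : ℂ) := by
    have : p.1 = v.1 + W * (p.1 / W) := by rw [← h1, Int.emod_add_mul_ediv]
    have h3 := congrArg (fun z : ℤ => (z : ℂ)) this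
    push_cast at h3
    exact h3
  have e2 : (p.2 : ℂ) = v.2 + W * ((p.2 / W : ℤ) : ℂ) := by
    have : p.2 = v.2 + W * (p.2 / W) := by rw [← h2, Int.emod_add_mul_ediv]
    have h3 := congrArg (fun z : ℤ => (z : ℂ)) this
    push_cast at h3
    exact h3
  unfold lp
  rw [e1, e2]
  ring

theorem LPD_cov (W : ℕ) (e₁ e₂ : ℂ) : cov (W * e₁) (W * e₂) = (W : ℝ) ^ 2 * cov e₁ e₂ := by
  unfold cov
  have h1 : (starRingEnd ℂ) (W * e₁) * (W * e₂) = (((W : ℝ) ^ 2 : ℝ) : ℂ) * ((starRingEnd ℂ) e₁ * e₂) := by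
    rw [map_mul, Complex.conj_natCast]
    push_cast
    ring
  rw [h1, Complex.im_ofReal_mul, abs_mul, abs_of_nonneg (by positivity)]

theorem LPD_nrm {W : ℕ} {e₁ e₂ : ℂ} {d : ℝ} (h : ‖e₁‖ + ‖e₂‖ ≤ d) : ‖(W : ℂ) * e₁‖ + ‖(W : ℂ) * e₂‖ ≤ W * d := by
  rw [norm_mul, norm_mul, Complex.norm_natCast, ← mul_add]
  exact mul_le_mul_of_nonneg_left h (Nat.cast_nonneg W)

/-- a class has at most as many elements as the set of the quotients -/
theorem LPD_le {W : ℕ} (e₁ e₂ : ℂ) (P : Finset (ℤ × ℤ)) (S : Set ℂ) (hP : ∀ p ∈ P, lp 0 e₁ e₂ p ∈ S)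
    (v : ℕ × ℕ) (hfin : {q : ℤ × ℤ | lp (v.1 * e₁ + v.2 * e₂) (W * e₁) (W * e₂) q ∈ S}.Finite) :
    ((LPD_cl W P v).card : ℝ) ≤ ({q : ℤ × ℤ | lp (v.1 * e₁ + v.2 * e₂) (W * e₁) (W * e₂) q ∈ S}.ncard : ℝ) := by
  rw [Set.ncard_eq_toFinset_card _ hfin]
  have : (LPD_cl W P v).card ≤ hfin.toFinset.card := by
    refine Finset.card_le_card_of_injOn (fun p => (p.1 / W, p.2 / W)) ?_ ?_
    · intro p hp
      obtain ⟨h0, h1, h2⟩ := Finset.mem_filter.1 (Finset.mem_coe.1 hp)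
      rw [Finset.mem_coe, Set.Finite.mem_toFinset, Set.mem_ofPred_eq, ← LPD_lp e₁ e₂ v p h1 h2]
      exact hP p h0
    · intro p hp q hq hpq
      obtain ⟨-, h1, h2⟩ := Finset.mem_filter.1 (Finset.mem_coe.1 hp)
      obtain ⟨-, g1, g2⟩ := Finset.mem_filter.1 (Finset.mem_coe.1 hq)
      simp only [Prod.mk.injEq] at hpq
      have a1 := Int.emod_add_mul_ediv p.1 W
      have a2 := Int.emod_add_mul_ediv p.2 W
      have b1 := Int.emod_add_mul_ediv q.1 W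
      have b2 := Int.emod_add_mul_ediv q.2 W
      rw [h1, hpq.1] at a1
      rw [h2, hpq.2] at a2
      rw [g1] at b1
      rw [g2] at b2
      exact Prod.ext (a1.symm.trans b1) (a2.symm.trans b2)
  exact_mod_cast this

theorem LPD_ge {W : ℕ} (hW : 1 ≤ W) (e₁ e₂ : ℂ) (P : Finset (ℤ × ℤ)) (S : Set ℂ)
    (hP : ∀ p, lp 0 e₁ e₂ p ∈ S → p ∈ P) (v : ℕ × ℕ) (hv1 : v.1 < W) (hv2 : v.2 < W)
    (hfin : {q : ℤ × ℤ | lp (v.1 * e₁ + v.2 * e₂) (W * e₁) (W * e₂) q ∈ S}.Finite) :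
    ({q : ℤ × ℤ | lp (v.1 * e₁ + v.2 * e₂) (W * e₁) (W * e₂) q ∈ S}.ncard : ℝ) ≤ ((LPD_cl W P v).card : ℝ) := by
  rw [Set.ncard_eq_toFinset_card _ hfin]
  have hW0 : (0 : ℤ) < W := by exact_mod_cast hW
  have : hfin.toFinset.card ≤ (LPD_cl W P v).card := by
    refine Finset.card_le_card_of_injOn (fun q => ((v.1 : ℤ) + W * q.1, (v.2 : ℤ) + W * q.2)) ?_ ?_
    · intro q hq
      rw [Finset.mem_coe, Set.Finite.mem_toFinset, Set.mem_ofPred_eq] at hq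
      have m1 : ((v.1 : ℤ) + W * q.1) % W = v.1 := by
        rw [Int.add_mul_emod_self_left, Int.emod_eq_of_lt (by positivity) (by exact_mod_cast hv1)]
      have m2 : ((v.2 : ℤ) + W * q.2) % W = v.2 := by
        rw [Int.add_mul_emod_self_left, Int.emod_eq_of_lt (by positivity) (by exact_mod_cast hv2)]
      refine Finset.mem_coe.2 (Finset.mem_filter.2 ⟨hP _ ?_, m1, m2⟩)
      rw [LPD_lp e₁ e₂ v _ m1 m2]
      have d1 : ((v.1 : ℤ) + W * q.1) / W = q.1 := by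
        rw [Int.add_mul_ediv_left _ _ hW0.ne', Int.ediv_eq_zero_of_lt (by positivity) (by exact_mod_cast hv1), zero_add]
      have d2 : ((v.2 : ℤ) + W * q.2) / W = q.2 := by
        rw [Int.add_mul_ediv_left _ _ hW0.ne', Int.ediv_eq_zero_of_lt (by positivity) (by exact_mod_cast hv2), zero_add]
      simp only [d1, d2]
      exact hq
    · intro q _ q' _ h
      simp only [Prod.mk.injEq, add_right_inj] at h
      exact Prod.ext (mul_left_cancel₀ hW0.ne' h.1) (mul_left_cancel₀ hW0.ne' h.2)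
  exact_mod_cast this

/-- summation of the bounds of the classes -/
theorem LPD_up {W : ℕ} (hW : 1 ≤ W) {F : ℤ → ℤ → ℝ} (hF : Per W F) (P : Finset (ℤ × ℤ)) {c M : ℝ}
    (h : ∀ v ∈ Finset.range W ×ˢ Finset.range W, (W : ℝ) ^ 2 * c * ((LPD_cl W P v).card : ℝ) ≤ M) :
    c * ∑ p ∈ P, F p.1 p.2 ≤ M := by
  have hW1 : (0 : ℝ) < (W : ℝ) ^ 2 := by positivity
  rw [LPD_sum hW hF P]
  have h1 : (W : ℝ) ^ 2 * (c * ∑ v ∈ Finset.range W ×ˢ Finset.range W, F v.1 v.2 * ((LPD_cl W P v).card : ℝ)) ≤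
      (W : ℝ) ^ 2 * M := by
    have h3 : (W : ℝ) ^ 2 * M = ∑ v ∈ Finset.range W ×ˢ Finset.range W, F v.1 v.2 * M := by
      rw [← LPD_mean hF, Finset.sum_mul]
    rw [h3, ← mul_assoc, Finset.mul_sum]
    refine Finset.sum_le_sum fun v hv => ?_
    have h2 := mul_le_mul_of_nonneg_left (h v hv) (hF.nn v.1 v.2)
    calc (W : ℝ) ^ 2 * c * (F v.1 v.2 * ((LPD_cl W P v).card : ℝ)) =
          F v.1 v.2 * ((W : ℝ) ^ 2 * c * ((LPD_cl W P v).card : ℝ)) := by ring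
      _ ≤ F v.1 v.2 * M := h2
  exact le_of_mul_le_mul_left h1 hW1

theorem LPD_low {W : ℕ} (hW : 1 ≤ W) {F : ℤ → ℤ → ℝ} (hF : Per W F) (P : Finset (ℤ × ℤ)) {c M : ℝ}
    (h : ∀ v ∈ Finset.range W ×ˢ Finset.range W, M ≤ (W : ℝ) ^ 2 * c * ((LPD_cl W P v).card : ℝ)) :
    M ≤ c * ∑ p ∈ P, F p.1 p.2 := by
  have h1 := LPD_up (c := -c) (M := -M) hW hF P (fun v hv => by
    have := h v hv
    linarith)
  linarith

theorem lpd (hLA3 : LA3) : LPD := by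
  intro W F e₁ e₂ d R hW hF hcov hd hR P hP
  have hWR : (1 : ℝ) ≤ W := by exact_mod_cast hW
  have hcov' : 0 < cov (W * e₁) (W * e₂) := by
    rw [LPD_cov]
    positivity
  have key := fun v : ℕ × ℕ => hLA3 (v.1 * e₁ + v.2 * e₂) (W * e₁) (W * e₂) (W * d) R hcov' (LPD_nrm hd) hR
  constructor
  · refine LPD_up hW hF P fun v hv => ?_
    obtain ⟨hfin, hup, -⟩ := key v
    have h1 := LPD_le (W := W) e₁ e₂ P {z | ‖z‖ ≤ R} (fun p hp => (hP p).1 hp) v hfin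
    rw [← LPD_cov]
    exact (mul_le_mul_of_nonneg_left h1 hcov'.le).trans hup
  · intro hWd
    refine LPD_low hW hF P fun v hv => ?_
    obtain ⟨hfin, -, hlow⟩ := key v
    rw [Finset.mem_product, Finset.mem_range, Finset.mem_range] at hv
    have h1 := LPD_ge hW e₁ e₂ P {z | ‖z‖ ≤ R} (fun p hp => (hP p).2 hp) v hv.1 hv.2 hfin
    rw [← LPD_cov]
    exact (hlow hWd).trans (mul_le_mul_of_nonneg_left h1 hcov'.le)

end Pool.Agent.helper26.T5
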