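import Pool.Agent.helper62.T5.LPD

set_option autoImplicit false

namespace Pool.Agent.helper26.T5

open MeasureTheory

theorem lps (hLA4 : LA4) : LPS := by
  intro W F e₁ e₂ u d R h hW hF hcov hd hR hh hu P hP
  have hWR : (1 : ℝ) ≤ W := by exact_mod_cast hW
  have hcov' : 0 < cov (W * e₁) (W * e₂) := by
    rw [LPD_cov]
    positivity
  refine LPD_up hW hF P fun v hv => ?_
  obtain ⟨hfin, hup⟩ := hLA4 (v.1 * e₁ + v.2 * e₂) (W * e₁) (W * e₂) u (W * d) R h hcov' (LPD_nrm hd) hR hh hu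
  have h1 := LPD_le (W := W) e₁ e₂ P {z | ‖z‖ ≤ R ∧ |((starRingEnd ℂ) u * z).im| ≤ h} (fun p hp => hP p hp) v hfin
  rw [← LPD_cov]
  exact (mul_le_mul_of_nonneg_left h1 hcov'.le).trans hup

end Pool.Agent.helper26.T5
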