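import Pool.Agent.helper94.T5.SpecV

set_option autoImplicit false

namespace Pool.Agent.T5V

open MeasureTheory Set
open scoped ENNReal

theorem VMU_prod {α β : Type*} [MeasureSpace α] [MeasureSpace β] [SFinite (volume : Measure α)]
    [SFinite (volume : Measure β)] (S : Set α) (T : Set β)
    {f : α → ℝ≥0∞} {g : β → ℝ≥0∞} (hf : Measurable f) (hg : Measurable g) :
    ∫⁻ z in S ×ˢ T, f z.1 * g z.2 = (∫⁻ x in S, f x) * ∫⁻ y in T, g y := by
  rw [Measure.volume_eq_prod, ← Measure.prod_restrict, lintegral_prod_mul hf.aemeasurable hg.aemeasurable]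

theorem VMU_one {a b : ℝ} (hab : a ≤ b) {f : ℝ → ℝ} {I : ℝ} (hf : IntervalIntegrable f volume a b)
    (h0 : ∀ x ∈ Ioc a b, 0 ≤ f x) (hI : ∫ x in a..b, f x = I) :
    ∫⁻ x in Ioc a b, ENNReal.ofReal (f x) = ENNReal.ofReal I := by
  rw [intervalIntegrable_iff_integrableOn_Ioc_of_le hab] at hf
  rw [intervalIntegral.integral_of_le hab] at hI
  rw [← hI, ofReal_integral_eq_lintegral_ofReal hf]
  exact (ae_restrict_iff' measurableSet_Ioc).2 (Filter.Eventually.of_forall h0)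

theorem VMU : VMU_stmt := by
  intro c b hc hok
  obtain ⟨hlt, h1, h2, h0, hlo, hhi⟩ := hok
  have p1 : 0 < b.lo 1 := lt_of_lt_of_le hc h1
  have p2 : 0 < b.lo 2 := lt_of_lt_of_le hc h2
  have q1 : 0 < b.hi 1 := p1.trans (hlt 1)
  have q2 : 0 < b.hi 2 := p2.trans (hlt 2)
  have d0 : 0 ≤ b.hi 0 - b.lo 0 := sub_nonneg.2 (hlt 0).le
  have d3 : 0 ≤ b.hi 3 - b.lo 3 := sub_nonneg.2 (hlt 3).le
  have d4 : 0 ≤ b.hi 4 - b.lo 4 := sub_nonneg.2 (hlt 4).le
  have e1 : 0 ≤ (1 / b.lo 1 ^ 2 - 1 / b.hi 1 ^ 2) / 2 := by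
    have : 1 / b.hi 1 ^ 2 ≤ 1 / b.lo 1 ^ 2 :=
      one_div_le_one_div_of_le (by positivity) (pow_le_pow_left₀ p1.le (hlt 1).le 2)
    linarith
  have e2 : 0 ≤ Real.log (b.hi 2 / b.lo 2) := Real.log_nonneg ((one_le_div p2).2 (hlt 2).le)
  have hset : b.set = Ioc (b.lo 0) (b.hi 0) ×ˢ (Ioc (b.lo 1) (b.hi 1) ×ˢ (Ioc (b.lo 2) (b.hi 2) ×ˢ
      (Ioc (b.lo 3) (b.hi 3) ×ˢ Ioc (b.lo 4) (b.hi 4)))) := by
    ext x
    rfl
  have hmeas : MeasurableSet b.set := by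
    rw [hset]
    exact measurableSet_Ioc.prod (measurableSet_Ioc.prod (measurableSet_Ioc.prod
      (measurableSet_Ioc.prod measurableSet_Ioc)))
  refine ⟨?_, hmeas, ?_⟩
  · unfold Bx.mu
    positivity
  · have hcongr : ∫⁻ x in b.set, ENNReal.ofReal (1 / (x.2.1 ^ 3 * x.2.2.1)) =
        ∫⁻ x in b.set, (fun _ : ℝ => (1 : ℝ≥0∞)) x.1 * ((fun y : ℝ × ℝ × ℝ × ℝ =>
          (fun n : ℝ => ENNReal.ofReal (1 / n ^ 3)) y.1 * ((fun z : ℝ × ℝ × ℝ =>
          (fun k : ℝ => ENNReal.ofReal (1 / k)) z.1 * ((fun w : ℝ × ℝ =>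
          (fun _ : ℝ => (1 : ℝ≥0∞)) w.1 * (fun _ : ℝ => (1 : ℝ≥0∞)) w.2) z.2)) y.2)) x.2) := by
      refine setLIntegral_congr_fun hmeas fun x hx => ?_
      have hn : 0 < x.2.1 := p1.trans hx.2.1.1
      show ENNReal.ofReal (1 / (x.2.1 ^ 3 * x.2.2.1)) =
        1 * (ENNReal.ofReal (1 / x.2.1 ^ 3) * (ENNReal.ofReal (1 / x.2.2.1) * (1 * 1)))
      rw [one_mul, mul_one, mul_one, ← ENNReal.ofReal_mul (by positivity), one_div_mul_one_div]
    have m1 : Measurable fun n : ℝ => ENNReal.ofReal (1 / n ^ 3) := by fun_prop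
    have m2 : Measurable fun k : ℝ => ENNReal.ofReal (1 / k) := by fun_prop
    have mc : Measurable fun _ : ℝ => (1 : ℝ≥0∞) := measurable_const
    have m4 : Measurable fun w : ℝ × ℝ => (fun _ : ℝ => (1 : ℝ≥0∞)) w.1 * (fun _ : ℝ => (1 : ℝ≥0∞)) w.2 :=
      (mc.comp measurable_fst).mul (mc.comp measurable_snd)
    have m3 : Measurable fun z : ℝ × ℝ × ℝ => (fun k : ℝ => ENNReal.ofReal (1 / k)) z.1 *
        ((fun w : ℝ × ℝ => (fun _ : ℝ => (1 : ℝ≥0∞)) w.1 * (fun _ : ℝ => (1 : ℝ≥0∞)) w.2) z.2) :=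
      (m2.comp measurable_fst).mul (m4.comp measurable_snd)
    have m5 : Measurable fun y : ℝ × ℝ × ℝ × ℝ => (fun n : ℝ => ENNReal.ofReal (1 / n ^ 3)) y.1 *
        ((fun z : ℝ × ℝ × ℝ => (fun k : ℝ => ENNReal.ofReal (1 / k)) z.1 *
        ((fun w : ℝ × ℝ => (fun _ : ℝ => (1 : ℝ≥0∞)) w.1 * (fun _ : ℝ => (1 : ℝ≥0∞)) w.2) z.2)) y.2) :=
      (m1.comp measurable_fst).mul (m3.comp measurable_snd)
    have i1 : ∫⁻ n in Ioc (b.lo 1) (b.hi 1), ENNReal.ofReal (1 / n ^ 3) =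
        ENNReal.ofReal ((1 / b.lo 1 ^ 2 - 1 / b.hi 1 ^ 2) / 2) := by
      have hz : (0 : ℝ) ∉ uIcc (b.lo 1) (b.hi 1) := by
        rw [uIcc_of_le (hlt 1).le]
        exact fun h => absurd h.1 (not_le.2 p1)
      have hfun : (fun n : ℝ => 1 / n ^ 3) = fun n : ℝ => n ^ (-3 : ℤ) := by
        funext n
        rw [zpow_neg, one_div]
        norm_cast
      refine VMU_one (hlt 1).le ?_ ?_ ?_
      · rw [hfun]
        exact intervalIntegral.intervalIntegrable_zpow (Or.inr hz)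
      · intro n hn
        have : 0 < n := p1.trans hn.1
        positivity
      · rw [hfun, integral_zpow (Or.inr ⟨by norm_num, hz⟩)]
        have z1 : (b.hi 1) ^ (-3 + 1 : ℤ) = 1 / b.hi 1 ^ 2 := by
          rw [show (-3 + 1 : ℤ) = -2 by norm_num, zpow_neg, one_div]
          norm_cast
        have z2 : (b.lo 1) ^ (-3 + 1 : ℤ) = 1 / b.lo 1 ^ 2 := by
          rw [show (-3 + 1 : ℤ) = -2 by norm_num, zpow_neg, one_div]
          norm_cast
        rw [z1, z2]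
        push_cast
        ring
    have i2 : ∫⁻ k in Ioc (b.lo 2) (b.hi 2), ENNReal.ofReal (1 / k) =
        ENNReal.ofReal (Real.log (b.hi 2 / b.lo 2)) := by
      refine VMU_one (hlt 2).le ?_ ?_ (integral_one_div_of_pos p2 q2)
      · refine intervalIntegral.intervalIntegrable_one_div (fun x hx => ?_) continuousOn_id
        rw [uIcc_of_le (hlt 2).le] at hx
        exact (p2.trans_le hx.1).ne'
      · intro k hk
        have : 0 < k := p2.trans hk.1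
        positivity
    have ic : ∀ a d : ℝ, ∫⁻ _ in Ioc a d, (1 : ℝ≥0∞) = ENNReal.ofReal (d - a) := by
      intro a d
      rw [setLIntegral_one, Real.volume_Ioc]
    rw [hcongr, hset, VMU_prod _ _ mc m5, VMU_prod _ _ m1 m3, VMU_prod _ _ m2 m4, VMU_prod _ _ mc mc,
      i1, i2, ic, ic, ic, ← ENNReal.ofReal_mul d3, ← ENNReal.ofReal_mul e2, ← ENNReal.ofReal_mul e1,
      ← ENNReal.ofReal_mul d0]
    congr 1
    unfold Bx.mu
    ring

end Pool.Agent.T5V
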